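import Pool.Agent.Helper75.Torus.Goals

set_option autoImplicit false

/-!
# The other waves are invisible at the scale of the `m`-th wave
-/

open Set MeasureTheory Matrix Filter Topology

namespace Pool.Agent.Helper6.Torus

open Pool.Agent.Helper75.Torus
open Pool.Agent.Helper75.Flow (curlL)

/-! ### Elementary inequalities -/

theorem cos_taylor (σ z : ℝ) : |Real.cos (σ + z) - Real.cos σ + z * Real.sin σ| ≤ z ^ 2 := by
  have h := Convex.norm_image_sub_le_of_norm_hasDerivWithin_le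
    (f := fun w => Real.cos (σ + w) - Real.cos σ + w * Real.sin σ)
    (f' := fun w => -Real.sin (σ + w) + Real.sin σ) (C := |z|) (s := Set.uIcc 0 z) (x := 0)
    (y := z) ?_ ?_ (convex_uIcc 0 z) Set.left_mem_uIcc Set.right_mem_uIcc
  · simp only [add_zero, sub_self, zero_mul, sub_zero, Real.norm_eq_abs] at h
    rwa [← sq, sq_abs] at h
  · intro w _
    have h1 : HasDerivAt (fun w => Real.cos (σ + w)) (-Real.sin (σ + w)) w := by
      have := (Real.hasDerivAt_cos (σ + w)).comp w ((hasDerivAt_id w).const_add σ)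
      simp only [mul_one] at this
      exact this
    have h2 : HasDerivAt (fun w => w * Real.sin σ) (Real.sin σ) w := by
      simpa using (hasDerivAt_id w).mul_const (Real.sin σ)
    exact ((h1.sub_const _).add h2).hasDerivWithinAt
  · intro w hw
    have h1 := Real.abs_sin_sub_sin_le σ (σ + w)
    rw [Real.norm_eq_abs]
    have h2 : |w| ≤ |z| := by
      rw [Set.mem_uIcc] at hw
      rcases hw with ⟨h3, h4⟩ | ⟨h3, h4⟩
      · rw [abs_of_nonneg h3, abs_of_nonneg (h3.trans h4)]; exact h4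
      · rw [abs_of_nonpos h4, abs_of_nonpos (h3.trans h4)]; linarith
    calc |-Real.sin (σ + w) + Real.sin σ| = |Real.sin σ - Real.sin (σ + w)| := by
          congr 1; ring
      _ ≤ |σ - (σ + w)| := h1
      _ = |w| := by rw [show σ - (σ + w) = -w by ring, abs_neg]
      _ ≤ |z| := h2

theorem abs_dot_le {w f : E} {B : ℝ} (hB : ∀ i, |w i| ≤ B) : |w ⬝ᵥ f| ≤ 3 * B * ‖f‖ := by
  have hB0 : 0 ≤ B := (abs_nonneg _).trans (hB 0)
  have h1 : ∀ i, |w i * f i| ≤ B * ‖f‖ := fun i => by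
    rw [abs_mul]
    exact mul_le_mul (hB i) (by simpa using norm_le_pi_norm f i) (abs_nonneg _) hB0
  unfold dotProduct
  calc |∑ i, w i * f i| ≤ ∑ i, |w i * f i| := Finset.abs_sum_le_sum_abs _ _
    _ ≤ ∑ _i : Fin 3, B * ‖f‖ := Finset.sum_le_sum fun i _ => h1 i
    _ = 3 * B * ‖f‖ := by simp; ring

theorem dir_cases (n : ℕ) :
    dir n = ![1, 0, 0] ∨ dir n = ![0, 1, 0] ∨ dir n = ![0, 0, 1] ∨ dir n = ![1, 1, 1] := by
  have h : n % 8 = 0 ∨ n % 8 = 1 ∨ n % 8 = 2 ∨ n % 8 = 3 ∨ n % 8 = 4 ∨ n % 8 = 5 ∨ n % 8 = 6 ∨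
    n % 8 = 7 := by omega
  unfold dir
  rcases h with h | h | h | h | h | h | h | h <;> simp [h]

theorem pol_cases (n : ℕ) :
    pol n = ![1, 0, 0] ∨ pol n = ![0, 1, 0] ∨ pol n = ![0, 0, 1] ∨
      pol n = ![1 / Real.sqrt 2, -(1 / Real.sqrt 2), 0] ∨
      pol n = ![1 / Real.sqrt 6, 1 / Real.sqrt 6, -(2 / Real.sqrt 6)] := by
  have h : n % 8 = 0 ∨ n % 8 = 1 ∨ n % 8 = 2 ∨ n % 8 = 3 ∨ n % 8 = 4 ∨ n % 8 = 5 ∨ n % 8 = 6 ∨
    n % 8 = 7 := by omega
  unfold pol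
  rcases h with h | h | h | h | h | h | h | h <;> simp only [h] <;> simp

theorem dirB (n : ℕ) (i : Fin 3) : |dir n i| ≤ 1 ∧ (dir n ⬝ᵥ dir n = 1 ∨ dir n ⬝ᵥ dir n = 3) := by
  rcases dir_cases n with h | h | h | h <;> rw [h] <;>
    fin_cases i <;> simp [dotProduct, Fin.sum_univ_three] <;> norm_num

theorem polB (n : ℕ) (i : Fin 3) : |pol n i| ≤ 1 := by
  have h2 : (1 : ℝ) ≤ Real.sqrt 2 := by
    rw [show (1 : ℝ) = Real.sqrt 1 by simp]
    exact Real.sqrt_le_sqrt (by norm_num)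
  have h6 : (2 : ℝ) ≤ Real.sqrt 6 := by
    rw [show (2 : ℝ) = Real.sqrt 4 by
      rw [show (4 : ℝ) = 2 ^ 2 by norm_num, Real.sqrt_sq (by norm_num)]]
    exact Real.sqrt_le_sqrt (by norm_num)
  have e2 : |1 / Real.sqrt 2| ≤ 1 := by
    rw [abs_of_nonneg (by positivity)]
    rw [div_le_one (by linarith)]; exact h2
  have e6 : |1 / Real.sqrt 6| ≤ 1 := by
    rw [abs_of_nonneg (by positivity)]
    rw [div_le_one (by linarith)]; linarith
  have e6' : |2 / Real.sqrt 6| ≤ 1 := by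
    rw [abs_of_nonneg (by positivity)]
    rw [div_le_one (by linarith)]; exact h6
  rcases pol_cases n with h | h | h | h | h <;> rw [h]
  · fin_cases i <;> simp
  · fin_cases i <;> simp
  · fin_cases i <;> simp
  · fin_cases i
    · exact e2
    · show |-(1 / Real.sqrt 2)| ≤ 1
      rw [abs_neg]; exact e2
    · simp
  · fin_cases i
    · exact e6
    · exact e6
    · show |-(2 / Real.sqrt 6)| ≤ 1
      rw [abs_neg]; exact e6'

theorem nnB (n : ℕ) : 1 ≤ nn (dir n) ∧ nn (dir n) ≤ 2 := by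
  unfold nn
  rcases (dirB n 0).2 with h | h
  · rw [h]; simp
  · rw [h]
    constructor
    · rw [show (1 : ℝ) = Real.sqrt 1 by simp]
      exact Real.sqrt_le_sqrt (by norm_num)
    · rw [show (2 : ℝ) = Real.sqrt 4 by
        rw [show (4 : ℝ) = 2 ^ 2 by norm_num, Real.sqrt_sq (by norm_num)]]
      exact Real.sqrt_le_sqrt (by norm_num)

theorem lam_lb {N : ℕ} (hN : 4 ≤ N) (n : ℕ) : (N : ℝ) ^ (n ^ 2) ≤ lamn N n := by
  unfold lamn
  have h : (0 : ℝ) ≤ (N : ℝ) ^ (n ^ 2) := by positivity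
  nlinarith [(nnB n).1]

theorem lam_ub {N : ℕ} (hN : 4 ≤ N) (n : ℕ) : lamn N n ≤ 2 * (N : ℝ) ^ (n ^ 2) := by
  unfold lamn
  have h : (0 : ℝ) ≤ (N : ℝ) ^ (n ^ 2) := by positivity
  nlinarith [(nnB n).2]

theorem N_pow_pos {N : ℕ} (hN : 4 ≤ N) (k : ℕ) : (1 : ℝ) ≤ (N : ℝ) ^ k := by
  apply one_le_pow₀
  exact_mod_cast (by omega : 1 ≤ N)

theorem lam_ge_one {N : ℕ} (hN : 4 ≤ N) (n : ℕ) : 1 ≤ lamn N n :=
  (N_pow_pos hN _).trans (lam_lb hN n)

theorem lam_pos {N : ℕ} (hN : 4 ≤ N) (n : ℕ) : 0 < lamn N n :=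
  lt_of_lt_of_le one_pos (lam_ge_one hN n)

/-- The ratio of two wave numbers. -/
theorem ratio {N : ℕ} (hN : 4 ≤ N) {a b k : ℕ} (h : a ^ 2 + k ≤ b ^ 2) :
    lamn N a / lamn N b ≤ 2 * (1 / 4) ^ k := by
  have h1 := lam_ub hN a
  have h2 := lam_lb hN b
  have h3 : (0 : ℝ) < (N : ℝ) ^ (b ^ 2) := by positivity
  have hN4 : (4 : ℝ) ≤ N := by exact_mod_cast hN
  rw [div_le_iff₀ (lam_pos hN b)]
  have h4 : (N : ℝ) ^ (a ^ 2) * 4 ^ k ≤ (N : ℝ) ^ (b ^ 2) := by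
    calc (N : ℝ) ^ (a ^ 2) * 4 ^ k ≤ (N : ℝ) ^ (a ^ 2) * (N : ℝ) ^ k := by gcongr
      _ = (N : ℝ) ^ (a ^ 2 + k) := by rw [pow_add]
      _ ≤ (N : ℝ) ^ (b ^ 2) := pow_le_pow_right₀ (by linarith) h
  have h5 : (1 / 4 : ℝ) ^ k * 4 ^ k = 1 := by rw [← mul_pow]; norm_num
  calc lamn N a ≤ 2 * (N : ℝ) ^ (a ^ 2) := h1
    _ = 2 * (1 / 4) ^ k * ((N : ℝ) ^ (a ^ 2) * 4 ^ k) := by
        rw [show 2 * (1 / 4 : ℝ) ^ k * ((N : ℝ) ^ (a ^ 2) * 4 ^ k) =
          2 * (N : ℝ) ^ (a ^ 2) * ((1 / 4 : ℝ) ^ k * 4 ^ k) by ring, h5, mul_one]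
    _ ≤ 2 * (1 / 4) ^ k * (N : ℝ) ^ (b ^ 2) := by gcongr
    _ ≤ 2 * (1 / 4) ^ k * lamn N b := by gcongr

/-! ### The waves -/

theorem term_cont (α : ℝ) (N n : ℕ) : Continuous (term α N n) := by
  have h : Continuous (fun x : E => xi N n ⬝ᵥ x) := by
    unfold dotProduct
    fun_prop
  exact (continuous_const.mul (Real.continuous_cos.comp h)).smul continuous_const

theorem term_le {α : ℝ} {N : ℕ} (hN : 4 ≤ N) (n : ℕ) (x : E) (i : Fin 3) :
    |term α N n x i| ≤ (lamn N n) ^ (-(1 + α)) := by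
  have h0 : 0 ≤ (lamn N n) ^ (-(1 + α)) := Real.rpow_nonneg (lam_pos hN n).le _
  unfold term
  rw [Pi.smul_apply, smul_eq_mul, abs_mul, abs_mul, abs_of_nonneg h0]
  calc (lamn N n) ^ (-(1 + α)) * |Real.cos (xi N n ⬝ᵥ x)| * |pol n i|
      ≤ (lamn N n) ^ (-(1 + α)) * 1 * 1 := by
        gcongr
        · exact Real.abs_cos_le_one _
        · exact polB n i
    _ = _ := by ring

theorem coef_le {α : ℝ} (hα : 0 < α) {N : ℕ} (hN : 4 ≤ N) (n : ℕ) :
    (lamn N n) ^ (-(1 + α)) ≤ (1 / 4) ^ n := by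
  have h1 : (lamn N n) ^ (-(1 + α)) ≤ (lamn N n) ^ (-1 : ℝ) :=
    Real.rpow_le_rpow_of_exponent_le (lam_ge_one hN n) (by linarith)
  rw [Real.rpow_neg_one] at h1
  refine h1.trans ?_
  have h2 : (4 : ℝ) ^ n ≤ lamn N n := by
    refine le_trans ?_ (lam_lb hN n)
    have hN4 : (4 : ℝ) ≤ N := by exact_mod_cast hN
    calc (4 : ℝ) ^ n ≤ (N : ℝ) ^ n := by gcongr
      _ ≤ (N : ℝ) ^ (n ^ 2) := pow_le_pow_right₀ (by linarith) (Nat.le_self_pow (by norm_num) n)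
  rw [one_div, inv_pow]
  exact inv_anti₀ (by positivity) h2

theorem norm_term_le {α : ℝ} (hα : 0 < α) {N : ℕ} (hN : 4 ≤ N) (n : ℕ) (x : E) :
    ‖term α N n x‖ ≤ (1 / 4) ^ n := by
  rw [pi_norm_le_iff_of_nonneg (by positivity)]
  intro i
  rw [Real.norm_eq_abs]
  exact (term_le hN n x i).trans (coef_le hα hN n)

theorem summable_geo : Summable (fun n : ℕ => (1 / 4 : ℝ) ^ n) :=
  summable_geometric_of_lt_one (by norm_num) (by norm_num)

/-- The waves after the `m`-th one. -/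
noncomputable def tail (α : ℝ) (N m : ℕ) (x : E) : E := ∑' j, term α N (m + 1 + j) x

theorem tail_cont {α : ℝ} (hα : 0 < α) {N : ℕ} (hN : 4 ≤ N) (m : ℕ) :
    Continuous (tail α N m) := by
  apply continuous_tsum (u := fun n => (1 / 4 : ℝ) ^ n) (fun j => term_cont α N _) summable_geo
  intro j x
  exact (norm_term_le hα hN _ x).trans (pow_le_pow_of_le_one (by norm_num) (by norm_num) (by omega))

theorem v0_split {α : ℝ} (hα : 0 < α) {N : ℕ} (hN : 4 ≤ N) (m : ℕ) (x : E) :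
    v0 α N x - term α N m x = (∑ n ∈ Finset.range m, term α N n x) + tail α N m x := by
  have hs : Summable (fun n => term α N n x) :=
    Summable.of_norm_bounded summable_geo (fun n => norm_term_le hα hN n x)
  have h := hs.sum_add_tsum_nat_add (m + 1)
  unfold v0 tail
  rw [← h, Finset.sum_range_succ]
  have : (fun j => term α N (m + 1 + j) x) = fun j => term α N (j + (m + 1)) x := by
    funext j; rw [add_comm]
  rw [this]
  abel

/-- The tail is small compared with the `m`-th wave. -/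
theorem tail_le {α : ℝ} (hα : 0 < α) {N : ℕ} (hN : 4 ≤ N) (m : ℕ) (x : E) (i : Fin 3) :
    (lamn N m) ^ (1 + α) * |tail α N m x i| ≤ (1 / 4) ^ m := by
  have hs : Summable (fun j => term α N (m + 1 + j) x) := by
    apply Summable.of_norm_bounded summable_geo
    intro j
    exact (norm_term_le hα hN _ x).trans
      (pow_le_pow_of_le_one (by norm_num) (by norm_num) (by omega))
  have h1 : tail α N m x i = ∑' j, term α N (m + 1 + j) x i := by
    unfold tail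
    rw [tsum_apply hs]
  have hL : 0 < (lamn N m) ^ (1 + α) := Real.rpow_pos_of_pos (lam_pos hN m) _
  have key : ∀ j, (lamn N m) ^ (1 + α) * |term α N (m + 1 + j) x i| ≤
      (1 / 2) * (1 / 4) ^ m * (1 / 4) ^ j := by
    intro j
    have h2 := term_le (α := α) hN (m + 1 + j) x i
    have h3 : (lamn N m) ^ (1 + α) * (lamn N (m + 1 + j)) ^ (-(1 + α)) =
        (lamn N m / lamn N (m + 1 + j)) ^ (1 + α) := by
      rw [Real.div_rpow (lam_pos hN _).le (lam_pos hN _).le, Real.rpow_neg (lam_pos hN _).le]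
      rfl
    have h4 : lamn N m / lamn N (m + 1 + j) ≤ 2 * (1 / 4) ^ (m + 1 + j) := by
      apply ratio hN
      nlinarith
    have h5 : 0 < lamn N m / lamn N (m + 1 + j) := div_pos (lam_pos hN _) (lam_pos hN _)
    have h6 : lamn N m / lamn N (m + 1 + j) ≤ 1 := by
      refine h4.trans ?_
      have : ((1 : ℝ) / 4) ^ (m + 1 + j) ≤ 1 / 4 := by
        rw [show m + 1 + j = (m + j) + 1 by ring, pow_succ]
        have : ((1 : ℝ) / 4) ^ (m + j) ≤ 1 := pow_le_one₀ (by norm_num) (by norm_num)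
        linarith
      linarith
    have h7 : (lamn N m / lamn N (m + 1 + j)) ^ (1 + α) ≤ lamn N m / lamn N (m + 1 + j) := by
      conv_rhs => rw [← Real.rpow_one (lamn N m / lamn N (m + 1 + j))]
      exact Real.rpow_le_rpow_of_exponent_ge h5 h6 (by linarith)
    calc (lamn N m) ^ (1 + α) * |term α N (m + 1 + j) x i|
        ≤ (lamn N m) ^ (1 + α) * (lamn N (m + 1 + j)) ^ (-(1 + α)) := by gcongr
      _ = (lamn N m / lamn N (m + 1 + j)) ^ (1 + α) := h3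
      _ ≤ 2 * (1 / 4) ^ (m + 1 + j) := h7.trans h4
      _ = (1 / 2) * (1 / 4) ^ m * (1 / 4) ^ j := by rw [pow_add, pow_add]; ring
  have hsum : Summable (fun j : ℕ => (1 / 2 : ℝ) * (1 / 4) ^ m * (1 / 4) ^ j) :=
    summable_geo.mul_left _
  rw [h1]
  have h8 : (lamn N m) ^ (1 + α) * |∑' j, term α N (m + 1 + j) x i| =
      ‖∑' j, (lamn N m) ^ (1 + α) * term α N (m + 1 + j) x i‖ := by
    rw [tsum_mul_left, Real.norm_eq_abs, abs_mul, abs_of_pos hL]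
  rw [h8]
  have h9 := tsum_of_norm_bounded (f := fun j => (lamn N m) ^ (1 + α) * term α N (m + 1 + j) x i)
    hsum.hasSum (fun j => by
      rw [Real.norm_eq_abs, abs_mul, abs_of_pos hL]; exact key j)
  refine h9.trans ?_
  rw [tsum_mul_left, tsum_geometric_of_lt_one (by norm_num) (by norm_num)]
  have : (0 : ℝ) ≤ (1 / 4) ^ m := by positivity
  norm_num
  linarith

/-! ### The pairing -/

theorem expand (y : E) : y = ∑ l, y l • ee l := by
  ext i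
  rw [Finset.sum_apply]
  simp only [ee, Pi.smul_apply, smul_eq_mul, Pi.single_apply, mul_ite, mul_one, mul_zero]
  simp

theorem J_expand (J : E →L[ℝ] E) (q y : E) : q ⬝ᵥ J y = ∑ l, y l * (q ⬝ᵥ J (ee l)) := by
  conv_lhs => rw [expand y, map_sum]
  rw [dotProduct_sum]
  apply Finset.sum_congr rfl
  intro l _
  rw [map_smul, dotProduct_smul, smul_eq_mul]

theorem curl_lin (a c : ℝ) (L M : E →L[ℝ] E) :
    curlL (a • L + c • M) = a • curlL L + c • curlL M := by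
  ext i
  fin_cases i <;> simp [curlL] <;> ring

theorem Qf_tau (η : E → ℝ) (κ : E) (δ τ : ℝ) (b : E) :
    Qf η κ δ τ b = fun Y => Real.cos τ • Qf η κ δ 0 b Y + Real.sin τ • Qf η κ δ (Real.pi / 2) b Y := by
  funext Y
  unfold Qf
  rw [add_zero, Real.sin_add, Real.sin_add, Real.sin_pi_div_two, Real.cos_pi_div_two, smul_smul,
    smul_smul, ← add_smul]
  congr 1
  ring

theorem Tf_tau {η : E → ℝ} {κ : E} {δ : ℝ} {b : E} (τ : ℝ)
    (h0 : ContDiff ℝ 3 (Qf η κ δ 0 b)) (h1 : ContDiff ℝ 3 (Qf η κ δ (Real.pi / 2) b)) (Y : E) :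
    Tf η κ δ τ b Y =
      Real.cos τ • Tf η κ δ 0 b Y + Real.sin τ • Tf η κ δ (Real.pi / 2) b Y := by
  unfold Tf
  rw [← curl_lin, Qf_tau η κ δ τ b]
  congr 1
  have d0 : DifferentiableAt ℝ (Qf η κ δ 0 b) Y := (h0.differentiable (by norm_num)) Y
  have d1 : DifferentiableAt ℝ (Qf η κ δ (Real.pi / 2) b) Y := (h1.differentiable (by norm_num)) Y
  have e : HasFDerivAt (fun Y => Real.cos τ • Qf η κ δ 0 b Y +
      Real.sin τ • Qf η κ δ (Real.pi / 2) b Y)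
      (Real.cos τ • fderiv ℝ (Qf η κ δ 0 b) Y + Real.sin τ • fderiv ℝ (Qf η κ δ (Real.pi / 2) b) Y)
      Y := (d0.hasFDerivAt.const_smul (Real.cos τ)).add (d1.hasFDerivAt.const_smul (Real.sin τ))
  exact e.fderiv

theorem dot_cont {w f : E → E} (hw : Continuous w) (hf : Continuous f) :
    Continuous (fun Y => w Y ⬝ᵥ f Y) := by
  unfold dotProduct
  exact continuous_finsetSum _ (fun i _ =>
    ((continuous_apply i).comp hw).mul ((continuous_apply i).comp hf))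

theorem pair_int {w T : E → E} (J : E →L[ℝ] E) (hw : Continuous w) (hT : Continuous T)
    (hc : HasCompactSupport T) : Integrable (fun Y => w Y ⬝ᵥ J (T Y)) := by
  apply Continuous.integrable_of_hasCompactSupport (dot_cont hw (J.continuous.comp hT))
  apply hc.mono
  intro Y hY
  rw [Function.mem_support] at hY ⊢
  intro h
  apply hY
  simp [h]

theorem mul_int {f g : E → ℝ} (hf : Continuous f) (hg : Continuous g) (hc : HasCompactSupport g) :
    Integrable (fun Y => f Y * g Y) :=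
  Continuous.integrable_of_hasCompactSupport (hf.mul hg) hc.mul_left

/-- a rough bound -/
theorem pair_le {w T : E → E} (J : E →L[ℝ] E) {B : ℝ} {G : E → ℝ} (hB : ∀ Y i, |w Y i| ≤ B)
    (hG : Integrable G) (hT : ∀ Y, ‖J (T Y)‖ ≤ G Y) :
    |∫ Y, w Y ⬝ᵥ J (T Y)| ≤ 3 * B * ∫ Y, G Y := by
  have hB0 : 0 ≤ B := (abs_nonneg _).trans (hB 0 0)
  rw [← integral_const_mul, ← Real.norm_eq_abs]
  apply norm_integral_le_of_norm_le (hG.const_mul _)
  apply Filter.Eventually.of_forall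
  intro Y
  rw [Real.norm_eq_abs]
  refine (abs_dot_le (hB Y)).trans ?_
  exact mul_le_mul_of_nonneg_left (hT Y) (by positivity)

/-- cancellation by the vanishing moments -/
theorem wave_le {T : E → E} (J : E →L[ℝ] E) (hT : Continuous T) (hc : HasCompactSupport T)
    (hm0 : ∀ i, ∫ Y, T Y i = 0) (hm1 : ∀ i j, ∫ Y : E, Y j * T Y i = 0) {G : E → ℝ}
    (hG : Integrable (fun Y => ‖Y‖ ^ 2 * G Y)) (hTG : ∀ Y, ‖J (T Y)‖ ≤ G Y) (a : ℝ) (q k : E) {c σ : ℝ}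
    (hq : ∀ i, |q i| ≤ 1) (hk : ∀ Y, |k ⬝ᵥ J Y| ≤ c * ‖Y‖) :
    |∫ Y, ((a * Real.cos (σ + k ⬝ᵥ J Y)) • q) ⬝ᵥ J (T Y)| ≤
      |a| * (3 * c ^ 2 * ∫ Y, ‖Y‖ ^ 2 * G Y) := by
  have hTl : ∀ l, Continuous (fun Y => T Y l) := fun l => (continuous_apply l).comp hT
  have hTc : ∀ l, HasCompactSupport (fun Y => T Y l) := fun l => by
    apply hc.mono
    intro Y hY
    rw [Function.mem_support] at hY ⊢
    intro h
    apply hY
    simp [h]
  have hp : ∀ Y, q ⬝ᵥ J (T Y) = ∑ l, T Y l * (q ⬝ᵥ J (ee l)) := fun Y => J_expand J q (T Y)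
  have hpc : Continuous (fun Y => q ⬝ᵥ J (T Y)) := dot_cont continuous_const (J.continuous.comp hT)
  have hpi : HasCompactSupport (fun Y => q ⬝ᵥ J (T Y)) := by
    apply hc.mono
    intro Y hY
    rw [Function.mem_support] at hY ⊢
    intro h
    apply hY
    simp [h]
  have hzc : Continuous (fun Y : E => k ⬝ᵥ J Y) := dot_cont continuous_const J.continuous
  have h0 : ∫ Y, q ⬝ᵥ J (T Y) = 0 := by
    simp_rw [hp]
    rw [integral_finsetSum]
    · apply Finset.sum_eq_zero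
      intro l _
      rw [integral_mul_const, hm0 l, zero_mul]
    · intro l _
      exact ((hTl l).integrable_of_hasCompactSupport (hTc l)).mul_const _
  have h1 : ∫ Y, (k ⬝ᵥ J Y) * (q ⬝ᵥ J (T Y)) = 0 := by
    have e : ∀ Y : E, (k ⬝ᵥ J Y) * (q ⬝ᵥ J (T Y)) =
        ∑ j, ∑ l, (Y j * T Y l) * ((k ⬝ᵥ J (ee j)) * (q ⬝ᵥ J (ee l))) := by
      intro Y
      rw [hp, J_expand J k Y, Finset.sum_mul_sum]
      apply Finset.sum_congr rfl
      intro j _
      apply Finset.sum_congr rfl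
      intro l _
      ring
    have hint : ∀ j l, Integrable (fun Y : E =>
        (Y j * T Y l) * ((k ⬝ᵥ J (ee j)) * (q ⬝ᵥ J (ee l)))) := fun j l =>
      (mul_int (continuous_apply j) (hTl l) (hTc l)).mul_const _
    simp_rw [e]
    rw [integral_finsetSum _ (fun j _ => integrable_finsetSum _ (fun l _ => hint j l))]
    apply Finset.sum_eq_zero
    intro j _
    rw [integral_finsetSum _ (fun l _ => hint j l)]
    apply Finset.sum_eq_zero
    intro l _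
    rw [integral_mul_const, hm1 l j, zero_mul]
  have e1 : ∫ Y, ((a * Real.cos (σ + k ⬝ᵥ J Y)) • q) ⬝ᵥ J (T Y) =
      a * ∫ Y, (Real.cos (σ + k ⬝ᵥ J Y) - Real.cos σ + (k ⬝ᵥ J Y) * Real.sin σ) *
        (q ⬝ᵥ J (T Y)) := by
    have e2 : ∀ Y, (Real.cos (σ + k ⬝ᵥ J Y) - Real.cos σ + (k ⬝ᵥ J Y) * Real.sin σ) *
        (q ⬝ᵥ J (T Y)) = Real.cos (σ + k ⬝ᵥ J Y) * (q ⬝ᵥ J (T Y)) -
          Real.cos σ * (q ⬝ᵥ J (T Y)) + Real.sin σ * ((k ⬝ᵥ J Y) * (q ⬝ᵥ J (T Y))) := by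
      intro Y; ring
    have i1 : Integrable (fun Y => Real.cos (σ + k ⬝ᵥ J Y) * (q ⬝ᵥ J (T Y))) :=
      mul_int (Real.continuous_cos.comp (continuous_const.add hzc)) hpc hpi
    have i2 : Integrable (fun Y => Real.cos σ * (q ⬝ᵥ J (T Y))) :=
      mul_int continuous_const hpc hpi
    have i3 : Integrable (fun Y => Real.sin σ * ((k ⬝ᵥ J Y) * (q ⬝ᵥ J (T Y)))) :=
      (mul_int hzc hpc hpi).const_mul _
    simp_rw [e2]
    have i12 : Integrable (fun Y => Real.cos (σ + k ⬝ᵥ J Y) * (q ⬝ᵥ J (T Y)) -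
        Real.cos σ * (q ⬝ᵥ J (T Y))) := i1.sub i2
    rw [integral_add i12 i3, integral_sub i1 i2, integral_const_mul, integral_const_mul,
      h0, h1, mul_zero, mul_zero, sub_zero, add_zero, ← integral_const_mul]
    apply integral_congr_ae
    apply Filter.Eventually.of_forall
    intro Y
    simp only [smul_dotProduct, smul_eq_mul]
    ring
  rw [e1, abs_mul]
  apply mul_le_mul_of_nonneg_left _ (abs_nonneg _)
  rw [← integral_const_mul, ← Real.norm_eq_abs]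
  apply norm_integral_le_of_norm_le (hG.const_mul _)
  apply Filter.Eventually.of_forall
  intro Y
  rw [Real.norm_eq_abs, abs_mul]
  have g1 := cos_taylor σ (k ⬝ᵥ J Y)
  have g2 : |q ⬝ᵥ J (T Y)| ≤ 3 * 1 * ‖J (T Y)‖ := abs_dot_le hq
  have g3 : (k ⬝ᵥ J Y) ^ 2 ≤ (c * ‖Y‖) ^ 2 := by
    rw [← sq_abs (k ⬝ᵥ J Y)]
    exact pow_le_pow_left₀ (abs_nonneg _) (hk Y) 2
  calc |Real.cos (σ + k ⬝ᵥ J Y) - Real.cos σ + k ⬝ᵥ J Y * Real.sin σ| * |q ⬝ᵥ J (T Y)|
      ≤ (c * ‖Y‖) ^ 2 * (3 * 1 * G Y) := by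
        apply mul_le_mul (g1.trans g3) (g2.trans _) (abs_nonneg _) (sq_nonneg _)
        linarith [hTG Y]
    _ = 3 * c ^ 2 * (‖Y‖ ^ 2 * G Y) := by ring

theorem power_id {α L l : ℝ} (hL : 0 < L) (hl : 0 < l) :
    L ^ (1 + α) * (l ^ (-(1 + α)) * (l / L) ^ 2) = (l / L) ^ (1 - α) := by
  have ht : 0 < l / L := div_pos hl hL
  have h1 : L ^ (1 + α) * l ^ (-(1 + α)) = (l / L) ^ (-(1 + α)) := by
    rw [Real.div_rpow hl.le hL.le, Real.rpow_neg hL.le, div_inv_eq_mul, mul_comm]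
  rw [← mul_assoc, h1, ← Real.rpow_natCast (l / L) 2, ← Real.rpow_add ht]
  congr 1
  push_cast
  ring

theorem small_power {α : ℝ} (hα : 0 < α) (hα1 : α < 1) {t : ℝ} {m : ℕ} (ht : 0 < t)
    (h : t ≤ 2 * (1 / 4) ^ m) : t ^ (1 - α) ≤ 2 * ((1 / 4 : ℝ) ^ (1 - α)) ^ m := by
  have h1 : t ^ (1 - α) ≤ (2 * (1 / 4) ^ m) ^ (1 - α) :=
    Real.rpow_le_rpow ht.le h (by linarith)
  refine h1.trans ?_
  rw [Real.mul_rpow (by norm_num) (by positivity)]
  have h2 : (2 : ℝ) ^ (1 - α) ≤ 2 := by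
    conv_rhs => rw [← Real.rpow_one 2]
    exact Real.rpow_le_rpow_of_exponent_le (by norm_num) (by linarith)
  have h3 : ((1 / 4 : ℝ) ^ m) ^ (1 - α) = ((1 / 4 : ℝ) ^ (1 - α)) ^ m := by
    rw [← Real.rpow_natCast, ← Real.rpow_mul (by norm_num), ← Real.rpow_natCast,
      ← Real.rpow_mul (by norm_num), mul_comm]
  rw [h3]
  exact mul_le_mul_of_nonneg_right h2 (by positivity)

/-- `G_SGN`. -/
theorem thm (h1 : G_T1A) (h2 : G_T1B) : G_SGN := by
  intro α N η hα hα1 _ hN hη κ b J δ ρ hκ hδ hρ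
  obtain ⟨_, hA⟩ := h1 η κ hη hκ
  have hTc : ∀ τ, Continuous (Tf η κ δ τ b) := fun τ => ((hA δ hδ τ).1 b).1.continuous
  have hTs : ∀ τ, HasCompactSupport (Tf η κ δ τ b) := fun τ => ((hA δ hδ τ).1 b).2.1
  have hQ : ∀ τ, ContDiff ℝ 3 (Qf η κ δ τ b) := fun τ => ((hA δ hδ τ).1 b).2.2.1
  -- the majorant
  let G0 : E → ℝ := fun Y => ‖J‖ * (‖Tf η κ δ 0 b Y‖ + ‖Tf η κ δ (Real.pi / 2) b Y‖)
  have hG0c : Continuous G0 := continuous_const.mul ((hTc 0).norm.add (hTc _).norm)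
  have hG0s : HasCompactSupport G0 := by
    have : HasCompactSupport (fun Y => ‖Tf η κ δ 0 b Y‖ + ‖Tf η κ δ (Real.pi / 2) b Y‖) :=
      (hTs 0).norm.add (hTs (Real.pi / 2)).norm
    exact this.mul_left
  have hG0 : Integrable G0 := hG0c.integrable_of_hasCompactSupport hG0s
  have hG2 : Integrable (fun Y => ‖Y‖ ^ 2 * G0 Y) := mul_int (continuous_norm.pow 2) hG0c hG0s
  have hG0n : ∀ Y, 0 ≤ G0 Y := fun Y => by
    show 0 ≤ ‖J‖ * (‖Tf η κ δ 0 b Y‖ + ‖Tf η κ δ (Real.pi / 2) b Y‖)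
    positivity
  have hM1 : 0 ≤ ∫ Y, G0 Y := integral_nonneg hG0n
  have hM2 : 0 ≤ ∫ Y, ‖Y‖ ^ 2 * G0 Y :=
    integral_nonneg (fun Y => mul_nonneg (by positivity) (hG0n Y))
  have hTG : ∀ τ Y, ‖J (Tf η κ δ τ b Y)‖ ≤ G0 Y := by
    intro τ Y
    refine (J.le_opNorm _).trans ?_
    apply mul_le_mul_of_nonneg_left _ (norm_nonneg _)
    rw [Tf_tau τ (hQ 0) (hQ _)]
    refine (norm_add_le _ _).trans ?_
    rw [norm_smul, norm_smul, Real.norm_eq_abs, Real.norm_eq_abs]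
    apply add_le_add
    · exact mul_le_of_le_one_left (norm_nonneg _) (Real.abs_cos_le_one _)
    · exact mul_le_of_le_one_left (norm_nonneg _) (Real.abs_sin_le_one _)
  -- the limit
  set r : ℝ := (1 / 4 : ℝ) ^ (1 - α) with hr
  have hr0 : 0 ≤ r := by positivity
  have hr1 : r < 1 := Real.rpow_lt_one (by norm_num) (by norm_num) (by linarith)
  set C1 : ℝ := 54 * ‖J‖ ^ 2 * ∫ Y, ‖Y‖ ^ 2 * G0 Y with hC1
  set C2 : ℝ := 3 * ∫ Y, G0 Y with hC2
  have hlim : Tendsto (fun m : ℕ => C1 * ((m : ℝ) * r ^ m) + C2 * (1 / 4 : ℝ) ^ m) atTop (𝓝 0) := by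
    have t1 := (tendsto_self_mul_const_pow_of_lt_one hr0 hr1).const_mul C1
    have t2 := (tendsto_pow_atTop_nhds_zero_of_lt_one (by norm_num : (0 : ℝ) ≤ 1 / 4)
      (by norm_num : (1 / 4 : ℝ) < 1)).const_mul C2
    simpa using t1.add t2
  obtain ⟨m₀, hm₀⟩ := (hlim.eventually (ge_mem_nhds hρ)).exists_forall_of_atTop
  refine ⟨m₀, fun m hm x τ => ?_⟩
  refine le_trans ?_ (hm₀ m hm)
  -- splitting
  set L : ℝ := lamn N m with hL
  have hLp : 0 < L := lam_pos hN m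
  have hLa : 0 < L ^ (1 + α) := Real.rpow_pos_of_pos hLp _
  have hshift : Continuous (fun Y : E => x + L⁻¹ • J Y) :=
    continuous_const.add (L⁻¹ • J).continuous
  have hint : ∀ n, Integrable (fun Y =>
      term α N n (x + L⁻¹ • J Y) ⬝ᵥ J (Tf η κ δ τ b Y)) := fun n =>
    pair_int J ((term_cont α N n).comp hshift) (hTc τ) (hTs τ)
  have hintt : Integrable (fun Y => tail α N m (x + L⁻¹ • J Y) ⬝ᵥ J (Tf η κ δ τ b Y)) :=
    pair_int J ((tail_cont hα hN m).comp hshift) (hTc τ) (hTs τ)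
  have hsplit : ∫ Y, (v0 α N (x + L⁻¹ • J Y) - term α N m (x + L⁻¹ • J Y)) ⬝ᵥ
      J (Tf η κ δ τ b Y) =
      (∑ n ∈ Finset.range m, ∫ Y, term α N n (x + L⁻¹ • J Y) ⬝ᵥ J (Tf η κ δ τ b Y)) +
        ∫ Y, tail α N m (x + L⁻¹ • J Y) ⬝ᵥ J (Tf η κ δ τ b Y) := by
    simp_rw [v0_split hα hN m, add_dotProduct, sum_dotProduct]
    rw [integral_add (integrable_finsetSum _ (fun n _ => hint n)) hintt,
      integral_finsetSum _ (fun n _ => hint n)]
  -- the waves before the `m`-th one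
  have hwave : ∀ n ∈ Finset.range m, L ^ (1 + α) *
      |∫ Y, term α N n (x + L⁻¹ • J Y) ⬝ᵥ J (Tf η κ δ τ b Y)| ≤ C1 * r ^ m := by
    intro n hn
    rw [Finset.mem_range] at hn
    have hlp : 0 < lamn N n := lam_pos hN n
    have hA0 : 0 ≤ (lamn N n) ^ (-(1 + α)) := Real.rpow_nonneg hlp.le _
    have hxi : ∀ i, |(L⁻¹ • xi N n) i| ≤ lamn N n / L := by
      intro i
      have g1 : |xi N n i| ≤ lamn N n := by
        refine le_trans ?_ (lam_lb hN n)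
        unfold xi
        rw [Pi.smul_apply, smul_eq_mul, abs_mul, abs_of_nonneg (by positivity)]
        exact mul_le_of_le_one_right (by positivity) (dirB n i).1
      rw [Pi.smul_apply, smul_eq_mul, abs_mul, abs_of_pos (inv_pos.2 hLp), div_eq_inv_mul]
      exact mul_le_mul_of_nonneg_left g1 (inv_pos.2 hLp).le
    have hk : ∀ Y : E, |(L⁻¹ • xi N n) ⬝ᵥ J Y| ≤ (3 * (lamn N n / L) * ‖J‖) * ‖Y‖ := by
      intro Y
      refine (abs_dot_le hxi).trans ?_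
      rw [mul_assoc (3 * (lamn N n / L)) ‖J‖ ‖Y‖]
      exact mul_le_mul_of_nonneg_left (J.le_opNorm Y) (by positivity)
    have hw := wave_le (T := Tf η κ δ τ b) J (hTc τ) (hTs τ)
      (h2 η κ hη hκ δ hδ τ b).2.1 (h2 η κ hη hκ δ hδ τ b).2.2 hG2 (hTG τ)
      ((lamn N n) ^ (-(1 + α))) (pol n) (L⁻¹ • xi N n) (σ := xi N n ⬝ᵥ x) (polB n) hk
    have heq : ∀ Y : E, term α N n (x + L⁻¹ • J Y) =
        ((lamn N n) ^ (-(1 + α)) * Real.cos (xi N n ⬝ᵥ x + (L⁻¹ • xi N n) ⬝ᵥ J Y)) • pol n := by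
      intro Y
      unfold term
      rw [dotProduct_add, dotProduct_smul, smul_dotProduct]
    simp_rw [heq]
    rw [abs_of_nonneg hA0] at hw
    have ht : 0 < lamn N n / L := div_pos hlp hLp
    have hrat : lamn N n / L ≤ 2 * (1 / 4) ^ m := by
      apply ratio hN
      have : n + 1 ≤ m := hn
      nlinarith
    have hsp := small_power hα hα1 ht hrat
    have hid := power_id (α := α) hLp hlp
    calc L ^ (1 + α) * |∫ Y, (((lamn N n) ^ (-(1 + α)) *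
          Real.cos (xi N n ⬝ᵥ x + (L⁻¹ • xi N n) ⬝ᵥ J Y)) • pol n) ⬝ᵥ J (Tf η κ δ τ b Y)|
        ≤ L ^ (1 + α) * ((lamn N n) ^ (-(1 + α)) *
          (3 * (3 * (lamn N n / L) * ‖J‖) ^ 2 * ∫ Y, ‖Y‖ ^ 2 * G0 Y)) :=
          mul_le_mul_of_nonneg_left hw hLa.le
      _ = (L ^ (1 + α) * ((lamn N n) ^ (-(1 + α)) * (lamn N n / L) ^ 2)) *
          (27 * ‖J‖ ^ 2 * ∫ Y, ‖Y‖ ^ 2 * G0 Y) := by ring
      _ = (lamn N n / L) ^ (1 - α) * (27 * ‖J‖ ^ 2 * ∫ Y, ‖Y‖ ^ 2 * G0 Y) := by rw [hid]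
      _ ≤ (2 * r ^ m) * (27 * ‖J‖ ^ 2 * ∫ Y, ‖Y‖ ^ 2 * G0 Y) :=
          mul_le_mul_of_nonneg_right hsp (by positivity)
      _ = C1 * r ^ m := by rw [hC1]; ring
  -- the waves after the `m`-th one
  have htail : L ^ (1 + α) * |∫ Y, tail α N m (x + L⁻¹ • J Y) ⬝ᵥ J (Tf η κ δ τ b Y)| ≤
      C2 * (1 / 4) ^ m := by
    have hb : ∀ (Y : E) i, |tail α N m (x + L⁻¹ • J Y) i| ≤ (1 / 4) ^ m / L ^ (1 + α) := by
      intro Y i
      rw [le_div_iff₀ hLa, mul_comm]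
      exact tail_le hα hN m _ i
    have := pair_le J hb hG0 (hTG τ)
    calc L ^ (1 + α) * |∫ Y, tail α N m (x + L⁻¹ • J Y) ⬝ᵥ J (Tf η κ δ τ b Y)|
        ≤ L ^ (1 + α) * (3 * ((1 / 4) ^ m / L ^ (1 + α)) * ∫ Y, G0 Y) :=
          mul_le_mul_of_nonneg_left this hLa.le
      _ = C2 * (1 / 4) ^ m := by rw [hC2]; field_simp
  -- conclusion
  unfold pair
  rw [hsplit, abs_mul, abs_mul, abs_of_nonneg (pow_nonneg hδ.1.le 3), abs_of_pos hLa, mul_assoc]
  have hδ3 : δ ^ 3 ≤ 1 := pow_le_one₀ hδ.1.le hδ.2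
  refine (mul_le_of_le_one_left (by positivity) hδ3).trans ?_
  calc L ^ (1 + α) * |(∑ n ∈ Finset.range m,
        ∫ Y, term α N n (x + L⁻¹ • J Y) ⬝ᵥ J (Tf η κ δ τ b Y)) +
          ∫ Y, tail α N m (x + L⁻¹ • J Y) ⬝ᵥ J (Tf η κ δ τ b Y)|
      ≤ L ^ (1 + α) * ((∑ n ∈ Finset.range m,
        |∫ Y, term α N n (x + L⁻¹ • J Y) ⬝ᵥ J (Tf η κ δ τ b Y)|) +
          |∫ Y, tail α N m (x + L⁻¹ • J Y) ⬝ᵥ J (Tf η κ δ τ b Y)|) := by
        apply mul_le_mul_of_nonneg_left _ hLa.le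
        refine (abs_add_le _ _).trans ?_
        gcongr
        exact Finset.abs_sum_le_sum_abs _ _
    _ = (∑ n ∈ Finset.range m, L ^ (1 + α) *
        |∫ Y, term α N n (x + L⁻¹ • J Y) ⬝ᵥ J (Tf η κ δ τ b Y)|) +
          L ^ (1 + α) * |∫ Y, tail α N m (x + L⁻¹ • J Y) ⬝ᵥ J (Tf η κ δ τ b Y)| := by
        rw [mul_add, Finset.mul_sum]
    _ ≤ (∑ _n ∈ Finset.range m, C1 * r ^ m) + C2 * (1 / 4) ^ m :=
        add_le_add (Finset.sum_le_sum hwave) htail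
    _ = C1 * ((m : ℝ) * r ^ m) + C2 * (1 / 4 : ℝ) ^ m := by
        rw [Finset.sum_const, Finset.card_range, nsmul_eq_mul]; ring

end Pool.Agent.Helper6.Torus
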